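import Pool.Agent.AFJ.Stmts

/-! AFJ, row DRE: the error term of the drift (helper87). -/

set_option autoImplicit false

open scoped BigOperators Matrix

noncomputable section

namespace Pool.Agent.AFJ.H87

open Pool.Agent.LE.QF

variable {X : Type} [Fintype X] [DecidableEq X]

set_option linter.unusedSectionVars false

theorem qf_Dl (c : Matrix X X ℝ) (hc : ∀ x y, c x y = c y x) (f : X → ℝ) :
    qf (Dl c) f = (1 / 2) * ∑ x, ∑ y, c x y * (f x - f y) ^ 2 := by
  have h1 : qf (Dl c) f = ∑ x, ∑ y, c x y * (f x * (f x - f y)) := by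
    unfold qf Dl
    refine Finset.sum_congr rfl fun x _ => ?_
    rw [Matrix.sub_mulVec, Pi.sub_apply, Matrix.mulVec_diagonal]
    simp only [Matrix.mulVec, dotProduct]
    rw [Finset.sum_mul, ← Finset.sum_sub_distrib, Finset.mul_sum]
    refine Finset.sum_congr rfl fun y _ => ?_
    ring
  have h2 : ∑ x, ∑ y, c x y * (f x * (f x - f y)) = ∑ x, ∑ y, c x y * (f y * (f y - f x)) := by
    rw [Finset.sum_comm]
    refine Finset.sum_congr rfl fun x _ => Finset.sum_congr rfl fun y _ => ?_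
    rw [hc y x]
  have h4 : (∑ x, ∑ y, c x y * (f x * (f x - f y))) + (∑ x, ∑ y, c x y * (f y * (f y - f x))) =
      ∑ x, ∑ y, c x y * (f x - f y) ^ 2 := by
    rw [← Finset.sum_add_distrib]
    refine Finset.sum_congr rfl fun x _ => ?_
    rw [← Finset.sum_add_distrib]
    refine Finset.sum_congr rfl fun y _ => ?_
    ring
  rw [h1]
  linarith

theorem KK_symm (G : Matrix X X ℂ) (hs : ∀ x y, G x y = G y x) (x y : X) :
    KK G x y = KK G y x := by
  unfold KK
  rw [hs x y]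

theorem GD_eq (G : Matrix X X ℂ) (μ : X → ℂ) (x y : X) :
    GD G μ x y = ∑ c, G x c * μ c * G c y := by
  unfold GD
  rw [Matrix.mul_apply]
  refine Finset.sum_congr rfl fun c _ => ?_
  rw [Matrix.mul_diagonal]

theorem GD_symm (G : Matrix X X ℂ) (hs : ∀ x y, G x y = G y x) (μ : X → ℂ) (x y : X) :
    GD G μ x y = GD G μ y x := by
  rw [GD_eq, GD_eq]
  refine Finset.sum_congr rfl fun c _ => ?_
  rw [hs x c, hs c y]
  ring

theorem EK_symm (G : Matrix X X ℂ) (hs : ∀ x y, G x y = G y x) (μ : X → ℂ) (x y : X) :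
    EK G μ x y = EK G μ y x := by
  unfold EK
  rw [hs x y, GD_symm G hs]

/-- the inner double sum -/
theorem inner (G : Matrix X X ℂ) (hs : ∀ x y, G x y = G y x) (κ : X → ℝ) (A : Finset X)
    (f : X → ℝ) (c : X) :
    ∑ x ∈ A, ∑ y ∈ A, (κ x : ℂ) * κ y * (starRingEnd ℂ) (G x y) * (G x c * G c y) *
      (((f x - f y) ^ 2 : ℝ) : ℂ) =
    2 * ∑ x ∈ A, (κ x : ℂ) * G x c * ((f x - f c : ℝ) : ℂ) * bet G κ A f x c := by
  have h1 : ∑ x ∈ A, (κ x : ℂ) * G x c * ((f x - f c : ℝ) : ℂ) * bet G κ A f x c =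
      ∑ x ∈ A, ∑ y ∈ A, (κ x : ℂ) * κ y * (starRingEnd ℂ) (G x y) * (G x c * G c y) *
        (((f x - f y) * (f x - f c) : ℝ) : ℂ) := by
    refine Finset.sum_congr rfl fun x _ => ?_
    unfold bet
    rw [Finset.mul_sum]
    refine Finset.sum_congr rfl fun y _ => ?_
    push_cast
    ring
  have h2 : ∑ x ∈ A, ∑ y ∈ A, (κ x : ℂ) * κ y * (starRingEnd ℂ) (G x y) * (G x c * G c y) *
        (((f x - f y) * (f x - f c) : ℝ) : ℂ) =
      ∑ x ∈ A, ∑ y ∈ A, (κ x : ℂ) * κ y * (starRingEnd ℂ) (G x y) * (G x c * G c y) *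
        (((f y - f x) * (f y - f c) : ℝ) : ℂ) := by
    rw [Finset.sum_comm]
    refine Finset.sum_congr rfl fun x _ => Finset.sum_congr rfl fun y _ => ?_
    rw [hs y x, hs y c, hs c x]
    ring
  rw [two_mul]
  conv_rhs => rw [h1]
  have h3 : (∑ x ∈ A, ∑ y ∈ A, (κ x : ℂ) * κ y * (starRingEnd ℂ) (G x y) * (G x c * G c y) *
        (((f x - f y) * (f x - f c) : ℝ) : ℂ)) +
      (∑ x ∈ A, ∑ y ∈ A, (κ x : ℂ) * κ y * (starRingEnd ℂ) (G x y) * (G x c * G c y) *
        (((f y - f x) * (f y - f c) : ℝ) : ℂ)) =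
      ∑ x ∈ A, ∑ y ∈ A, (κ x : ℂ) * κ y * (starRingEnd ℂ) (G x y) * (G x c * G c y) *
        (((f x - f y) ^ 2 : ℝ) : ℂ) := by
    rw [← Finset.sum_add_distrib]
    refine Finset.sum_congr rfl fun x _ => ?_
    rw [← Finset.sum_add_distrib]
    refine Finset.sum_congr rfl fun y _ => ?_
    push_cast
    ring
  rw [← h3, ← h2]

def DreStmt2 : Prop :=
  BetStmt → ∀ (X : Type) [Fintype X] [DecidableEq X] (G : Matrix X X ℂ) (κ g : X → ℝ)
    (μ : X → ℂ) (A b : Finset X) (f : X → ℝ) (κv μs δ : ℝ), Net G κ → 0 < κv → b ⊆ A →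
    (∀ c ∈ b, κv ≤ κ c) → (∀ x ∈ b, |rho G κ A x - g x| ≤ δ) → 0 ≤ δ → 0 ≤ μs →
    (∀ c ∈ b, ‖μ c‖ ≤ μs) → (∀ c, c ∉ b → μ c = 0) →
      |qf (Dl (ee G κ g μ A b)) f| ≤ (2 * δ + 4 * μs) / κv * qf (EE G κ A) f


theorem dre : DreStmt2 := by
  intro hbet X _ _ G κ g μ A b f κv μs δ N hκv hbA hκb hρ hδ0 hμs hμ hμ0
  obtain ⟨-, -, -, -, h5, h6⟩ := hbet X G κ A f N
  set E : ℝ := qf (EE G κ A) f with hE
  set S : ℝ := ∑ x ∈ A, κ x * DD G κ A f x with hS
  have hES : S = 2 * E := by rw [h6]; ring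
  have hs := N.hs
  have hDD0 : ∀ x, 0 ≤ DD G κ A f x := by
    intro x
    unfold DD KK
    refine Finset.sum_nonneg fun y _ => ?_
    have := N.hκ y
    positivity
  -- the two parts
  have hsym : ∀ x y, ee G κ g μ A b x y = ee G κ g μ A b y x := by
    intro x y
    unfold ee
    by_cases h : x ∈ A ∧ y ∈ A
    · rw [if_pos h, if_pos h.symm, KK_symm G hs x y, EK_symm G hs μ x y]
      ring
    · rw [if_neg h, if_neg (fun h' => h h'.symm)]
  have hmain : qf (Dl (ee G κ g μ A b)) f =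
      (∑ x ∈ b, (rho G κ A x - g x) * DD G κ A f x) +
      (∑ c ∈ b, μ c * (2 * ∑ x ∈ A, (κ x : ℂ) * G x c * ((f x - f c : ℝ) : ℂ) *
        bet G κ A f x c)).re := by
    rw [qf_Dl _ hsym]
    have e1 : ∑ x, ∑ y, ee G κ g μ A b x y * (f x - f y) ^ 2 =
        ∑ x ∈ A, ∑ y ∈ A, (((ind b x * (rho G κ A x - g x) * κ y +
          κ x * (rho G κ A y - g y) * ind b y) * KK G x y +
          κ x * κ y * EK G μ x y) * (f x - f y) ^ 2) := by
      rw [← Finset.sum_subset (Finset.subset_univ A)]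
      · refine Finset.sum_congr rfl fun x hx => ?_
        rw [← Finset.sum_subset (Finset.subset_univ A)]
        · refine Finset.sum_congr rfl fun y hy => ?_
          unfold ee
          rw [if_pos ⟨hx, hy⟩]
        · intro y _ hy
          unfold ee
          rw [if_neg (fun h => hy h.2), zero_mul]
      · intro x _ hx
        refine Finset.sum_eq_zero fun y _ => ?_
        unfold ee
        rw [if_neg (fun h => hx h.1), zero_mul]
    rw [e1]
    have e2 : ∑ x ∈ A, ∑ y ∈ A, (((ind b x * (rho G κ A x - g x) * κ y +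
          κ x * (rho G κ A y - g y) * ind b y) * KK G x y +
          κ x * κ y * EK G μ x y) * (f x - f y) ^ 2) =
        (∑ x ∈ A, ∑ y ∈ A, ind b x * (rho G κ A x - g x) * κ y * KK G x y * (f x - f y) ^ 2) +
        (∑ x ∈ A, ∑ y ∈ A, κ x * (rho G κ A y - g y) * ind b y * KK G x y * (f x - f y) ^ 2) +
        (∑ x ∈ A, ∑ y ∈ A, κ x * κ y * EK G μ x y * (f x - f y) ^ 2) := by
      rw [← Finset.sum_add_distrib, ← Finset.sum_add_distrib]
      refine Finset.sum_congr rfl fun x _ => ?_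
      rw [← Finset.sum_add_distrib, ← Finset.sum_add_distrib]
      refine Finset.sum_congr rfl fun y _ => ?_
      ring
    have e3 : ∑ x ∈ A, ∑ y ∈ A, κ x * (rho G κ A y - g y) * ind b y * KK G x y * (f x - f y) ^ 2 =
        ∑ x ∈ A, ∑ y ∈ A, ind b x * (rho G κ A x - g x) * κ y * KK G x y * (f x - f y) ^ 2 := by
      rw [Finset.sum_comm]
      refine Finset.sum_congr rfl fun x _ => Finset.sum_congr rfl fun y _ => ?_
      rw [KK_symm G hs y x]
      ring
    have e4 : ∑ x ∈ A, ∑ y ∈ A, ind b x * (rho G κ A x - g x) * κ y * KK G x y * (f x - f y) ^ 2 =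
        ∑ x ∈ b, (rho G κ A x - g x) * DD G κ A f x := by
      rw [← Finset.sum_subset hbA]
      · refine Finset.sum_congr rfl fun x hx => ?_
        unfold DD ind
        rw [Finset.mul_sum]
        refine Finset.sum_congr rfl fun y _ => ?_
        rw [if_pos hx]
        ring
      · intro x _ hx
        refine Finset.sum_eq_zero fun y _ => ?_
        unfold ind
        rw [if_neg hx]
        ring
    have e5 : ∑ x ∈ A, ∑ y ∈ A, κ x * κ y * EK G μ x y * (f x - f y) ^ 2 =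
        2 * (∑ c ∈ b, μ c * (2 * ∑ x ∈ A, (κ x : ℂ) * G x c * ((f x - f c : ℝ) : ℂ) *
        bet G κ A f x c)).re := by
      have e6 : ∑ c ∈ b, μ c * (2 * ∑ x ∈ A, (κ x : ℂ) * G x c * ((f x - f c : ℝ) : ℂ) *
          bet G κ A f x c) =
          ∑ x ∈ A, ∑ y ∈ A, ((κ x * κ y * (f x - f y) ^ 2 : ℝ) : ℂ) *
            ((starRingEnd ℂ) (G x y) * GD G μ x y) := by
        have e7 : ∀ c, μ c * (2 * ∑ x ∈ A, (κ x : ℂ) * G x c * ((f x - f c : ℝ) : ℂ) *
            bet G κ A f x c) = ∑ x ∈ A, ∑ y ∈ A, μ c * ((κ x : ℂ) * κ y *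
              (starRingEnd ℂ) (G x y) * (G x c * G c y) * (((f x - f y) ^ 2 : ℝ) : ℂ)) := by
          intro c
          rw [← inner G hs κ A f c, Finset.mul_sum]
          refine Finset.sum_congr rfl fun x _ => ?_
          rw [Finset.mul_sum]
        rw [Finset.sum_congr rfl fun c _ => e7 c, Finset.sum_comm]
        refine Finset.sum_congr rfl fun x _ => ?_
        rw [Finset.sum_comm]
        refine Finset.sum_congr rfl fun y _ => ?_
        rw [GD_eq, ← Finset.sum_subset (Finset.subset_univ b)]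
        · rw [Finset.mul_sum, Finset.mul_sum]
          refine Finset.sum_congr rfl fun c _ => ?_
          push_cast
          ring
        · intro c _ hc
          rw [hμ0 c hc]
          ring
      rw [e6, Complex.re_sum, Finset.mul_sum]
      refine Finset.sum_congr rfl fun x _ => ?_
      rw [Complex.re_sum, Finset.mul_sum]
      refine Finset.sum_congr rfl fun y _ => ?_
      rw [Complex.re_ofReal_mul]
      unfold EK
      ring
    rw [e2, e3, e4, e5]
    ring
  -- bounds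
  have hDb : ∑ x ∈ b, DD G κ A f x ≤ S / κv := by
    rw [le_div_iff₀ hκv, Finset.sum_mul]
    calc ∑ x ∈ b, DD G κ A f x * κv ≤ ∑ x ∈ b, κ x * DD G κ A f x := by
          refine Finset.sum_le_sum fun x hx => ?_
          rw [mul_comm]
          exact mul_le_mul_of_nonneg_right (hκb x hx) (hDD0 x)
      _ ≤ S := by
          rw [hS]
          refine Finset.sum_le_sum_of_subset_of_nonneg hbA fun x _ _ => ?_
          exact mul_nonneg (N.hκ x).le (hDD0 x)
  have hδ : |∑ x ∈ b, (rho G κ A x - g x) * DD G κ A f x| ≤ δ * (S / κv) := by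
    calc |∑ x ∈ b, (rho G κ A x - g x) * DD G κ A f x|
        ≤ ∑ x ∈ b, |(rho G κ A x - g x) * DD G κ A f x| := Finset.abs_sum_le_sum_abs _ _
      _ ≤ ∑ x ∈ b, δ * DD G κ A f x := by
          refine Finset.sum_le_sum fun x hx => ?_
          rw [abs_mul, abs_of_nonneg (hDD0 x)]
          exact mul_le_mul_of_nonneg_right (hρ x hx) (hDD0 x)
      _ = δ * ∑ x ∈ b, DD G κ A f x := by rw [Finset.mul_sum]
      _ ≤ δ * (S / κv) := mul_le_mul_of_nonneg_left hDb hδ0
  have hterm : ∀ c ∈ b, ‖μ c * (2 * ∑ x ∈ A, (κ x : ℂ) * G x c * ((f x - f c : ℝ) : ℂ) *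
        bet G κ A f x c)‖ ≤ μs * (DD G κ A f c + ∑ x ∈ A, κ x * ‖bet G κ A f x c‖ ^ 2) := by
    intro c hc
    rw [norm_mul]
    refine mul_le_mul (hμ c hc) ?_ (norm_nonneg _) hμs
    rw [norm_mul, Complex.norm_ofNat]
    have h7 : ‖∑ x ∈ A, (κ x : ℂ) * G x c * ((f x - f c : ℝ) : ℂ) * bet G κ A f x c‖ ≤
        ∑ x ∈ A, κ x * (‖G x c‖ * |f x - f c| * ‖bet G κ A f x c‖) := by
      refine (norm_sum_le _ _).trans (le_of_eq (Finset.sum_congr rfl fun x _ => ?_))
      rw [norm_mul, norm_mul, norm_mul, Complex.norm_real, Complex.norm_real, Real.norm_eq_abs,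
        Real.norm_eq_abs, abs_of_pos (N.hκ x)]
      ring
    have h8 : ∑ x ∈ A, κ x * (‖G x c‖ * |f x - f c| * ‖bet G κ A f x c‖) ≤
        ∑ x ∈ A, (κ x * KK G c x * (f c - f x) ^ 2 + κ x * ‖bet G κ A f x c‖ ^ 2) / 2 := by
      refine Finset.sum_le_sum fun x _ => ?_
      have hk := (N.hκ x).le
      have h9 : KK G c x * (f c - f x) ^ 2 = (‖G x c‖ * |f x - f c|) ^ 2 := by
        unfold KK
        rw [hs c x, mul_pow, sq_abs]
        ring
      have h10 : ‖G x c‖ * |f x - f c| * ‖bet G κ A f x c‖ ≤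
          ((‖G x c‖ * |f x - f c|) ^ 2 + ‖bet G κ A f x c‖ ^ 2) / 2 := by
        nlinarith [sq_nonneg (‖G x c‖ * |f x - f c| - ‖bet G κ A f x c‖)]
      have h11 := mul_le_mul_of_nonneg_left h10 hk
      rw [← h9] at h11
      linarith
    have h12 : ∑ x ∈ A, (κ x * KK G c x * (f c - f x) ^ 2 + κ x * ‖bet G κ A f x c‖ ^ 2) / 2 =
        (DD G κ A f c + ∑ x ∈ A, κ x * ‖bet G κ A f x c‖ ^ 2) / 2 := by
      rw [← Finset.sum_div, Finset.sum_add_distrib]
      rfl
    rw [h12] at h8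
    linarith [h7.trans h8]
  have hsec : |(∑ c ∈ b, μ c * (2 * ∑ x ∈ A, (κ x : ℂ) * G x c * ((f x - f c : ℝ) : ℂ) *
        bet G κ A f x c)).re| ≤ μs * (2 * S / κv) := by
    refine (Complex.abs_re_le_norm _).trans ((norm_sum_le _ _).trans
      ((Finset.sum_le_sum hterm).trans ?_))
    rw [← Finset.mul_sum]
    refine mul_le_mul_of_nonneg_left ?_ hμs
    rw [Finset.sum_add_distrib]
    have h13 : ∑ c ∈ b, ∑ x ∈ A, κ x * ‖bet G κ A f x c‖ ^ 2 ≤ S / κv := by
      rw [le_div_iff₀ hκv, Finset.sum_mul]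
      calc ∑ c ∈ b, (∑ x ∈ A, κ x * ‖bet G κ A f x c‖ ^ 2) * κv
          ≤ ∑ c ∈ b, κ c * ∑ x ∈ A, κ x * ‖bet G κ A f x c‖ ^ 2 := by
            refine Finset.sum_le_sum fun c hc => ?_
            rw [mul_comm]
            refine mul_le_mul_of_nonneg_right (hκb c hc) (Finset.sum_nonneg fun x _ => ?_)
            have := (N.hκ x).le
            positivity
        _ = ∑ x ∈ A, κ x * ∑ c ∈ b, κ c * ‖bet G κ A f x c‖ ^ 2 := by
            simp only [Finset.mul_sum]
            rw [Finset.sum_comm]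
            refine Finset.sum_congr rfl fun x _ => Finset.sum_congr rfl fun c _ => ?_
            ring
        _ ≤ S := by
            rw [hS]
            exact Finset.sum_le_sum fun x _ =>
              mul_le_mul_of_nonneg_left (h5 x b) (N.hκ x).le
    have h14 : 2 * S / κv = S / κv + S / κv := by ring
    rw [h14]
    exact add_le_add hDb h13
  rw [hmain]
  refine (abs_add_le _ _).trans ((add_le_add hδ hsec).trans (le_of_eq ?_))
  rw [hES]
  ring

end Pool.Agent.AFJ.H87
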